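import Mathlib

set_option autoImplicit false

/-!
# Balanced perfect matchings of `K_{n,n}` with vector labels: the error can be `k`

Let `n ≥ k` be even. Label the edge joining the left vertex `i` and the right vertex `j` by `± e_i`
if `i < k`, the sign being `+` for `j` in the first half and `-` for `j` in the second half, and by
`0` if `i ≥ k`. The labels sum to `0`, and the label sum of any perfect matching is a vector all
of whose `k` coordinates are `1` or `-1`. Hence every perfect matching has error exactly `k` in the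
`ℓ¹`-norm.
-/

namespace Pool.Agent.Results.MP_26893d_co.LinearError

open Finset

/-- The `ℓ¹`-norm on `ℝ^k`. -/
def l1 {k : ℕ} (x : Fin k → ℝ) : ℝ := ∑ c, |x c|

/-- The error `f_h(M)` of the perfect matching `M = {(i, σ i)}` of `K_{n,n}` (a perfect matching of
`K_{n,n}` with sides `Fin n` is a permutation `σ` of `Fin n`): the `ℓ¹`-norm of
`h(M) - (1 / n) h(K_{n,n})`. -/
noncomputable def err {n k : ℕ} (h : Fin n → Fin n → Fin k → ℝ) (σ : Equiv.Perm (Fin n)) : ℝ :=
  l1 fun c => (∑ i, h i (σ i) c) - (1 / (n : ℝ)) * ∑ i, ∑ j, h i j c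

/-- the sign attached to a right vertex -/
def sgn (m j : ℕ) : ℝ := if j < m then 1 else -1

lemma sum_sgn (m : ℕ) : ∑ j : Fin (2 * m), sgn m j.val = 0 := by
  rw [Fin.sum_univ_eq_sum_range (fun j => sgn m j) (2 * m), two_mul, sum_range_add]
  have h1 : ∑ j ∈ range m, sgn m j = m := by
    rw [sum_congr rfl (g := fun _ => (1 : ℝ))]
    · simp
    · intro j hj
      unfold sgn
      rw [if_pos (mem_range.mp hj)]
  have h2 : ∑ j ∈ range m, sgn m (m + j) = -m := by
    rw [sum_congr rfl (g := fun _ => (-1 : ℝ))]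
    · simp
    · intro j hj
      unfold sgn
      rw [if_neg (by omega)]
  rw [h1, h2]
  ring

lemma abs_sgn (m j : ℕ) : |sgn m j| = 1 := by
  unfold sgn; split_ifs <;> simp

/-- the labelling -/
noncomputable def lab (m k : ℕ) (i j : Fin (2 * m)) (c : Fin k) : ℝ :=
  if i.val = c.val then sgn m j.val else 0

lemma lab_norm (m k : ℕ) (i j : Fin (2 * m)) : l1 (lab m k i j) ≤ 1 := by
  unfold l1 lab
  by_cases hi : i.val < k
  · rw [sum_eq_single (⟨i.val, hi⟩ : Fin k)]
    · simp [abs_sgn]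
    · intro c _ hc
      rw [if_neg, abs_zero]
      intro h
      exact hc (Fin.ext h.symm)
    · intro h; exact absurd (mem_univ _) h
  · rw [sum_eq_zero]
    · norm_num
    · intro c _
      rw [if_neg, abs_zero]
      have := c.isLt
      omega

lemma err_eq (m k : ℕ) (hk : k ≤ 2 * m) (σ : Equiv.Perm (Fin (2 * m))) :
    err (lab m k) σ = k := by
  unfold err l1
  have key : ∀ c : Fin k,
      |(∑ i, lab m k i (σ i) c) - (1 / ((2 * m : ℕ) : ℝ)) * ∑ i, ∑ j, lab m k i j c| = 1 := by
    intro c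
    have hc : c.val < 2 * m := lt_of_lt_of_le c.isLt hk
    have e1 : ∑ i, lab m k i (σ i) c = sgn m (σ ⟨c.val, hc⟩).val := by
      rw [sum_eq_single (⟨c.val, hc⟩ : Fin (2 * m))]
      · simp [lab]
      · intro i _ hi
        unfold lab
        rw [if_neg]
        intro h
        exact hi (Fin.ext h)
      · intro h; exact absurd (mem_univ _) h
    have e2 : ∑ i, ∑ j, lab m k i j c = 0 := by
      apply sum_eq_zero
      intro i _
      unfold lab
      split_ifs
      · exact sum_sgn m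
      · simp
    rw [e1, e2, mul_zero, sub_zero, abs_sgn]
  rw [sum_congr rfl (fun c _ => key c)]
  simp

/-- **The error of every perfect matching can be `k`.** For every `k` and every even `n ≥ k`
there is a labelling of the edges of `K_{n,n}` by vectors of `ℝ^k` of `ℓ¹`-norm at most `1` for
which every perfect matching has error exactly `k`. Consequently no absolute constant `C` has
the property asked for in Q1. -/
theorem result :
    (∀ n k : ℕ, Even n → k ≤ n → ∃ h : Fin n → Fin n → Fin k → ℝ,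
      (∀ i j, l1 (h i j) ≤ 1) ∧ ∀ σ : Equiv.Perm (Fin n), err h σ = k) ∧
    ¬ ∃ C : ℝ, ∀ n k : ℕ, 1 ≤ n → 1 ≤ k → ∀ h : Fin n → Fin n → Fin k → ℝ,
      (∀ i j, l1 (h i j) ≤ 1) → ∃ σ : Equiv.Perm (Fin n), err h σ ≤ C * Real.sqrt k := by
  have h1 : ∀ n k : ℕ, Even n → k ≤ n → ∃ h : Fin n → Fin n → Fin k → ℝ,
      (∀ i j, l1 (h i j) ≤ 1) ∧ ∀ σ : Equiv.Perm (Fin n), err h σ = k := by
    rintro n k ⟨m, rfl⟩ hk
    rw [← two_mul] at hk ⊢
    exact ⟨lab m k, fun i j => lab_norm m k i j, fun σ => err_eq m k hk σ⟩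
  refine ⟨h1, ?_⟩
  rintro ⟨C, hC⟩
  obtain ⟨m, hm⟩ := exists_nat_gt (max C 1)
  have hC1 : (1 : ℝ) ≤ max C 1 := le_max_right _ _
  have hm1 : (1 : ℝ) < m := lt_of_le_of_lt hC1 hm
  have hm0 : 1 ≤ m := by
    have : (0 : ℝ) < m := by linarith
    exact_mod_cast this
  obtain ⟨h, hh1, hh2⟩ := h1 (2 * m ^ 2) (m ^ 2) (even_two_mul _) (by omega)
  have hm2 : 1 ≤ m ^ 2 := Nat.one_le_pow _ _ hm0
  obtain ⟨σ, hσ⟩ := hC (2 * m ^ 2) (m ^ 2) (by omega) hm2 h hh1
  rw [hh2 σ] at hσ
  have hsq : Real.sqrt ((m ^ 2 : ℕ) : ℝ) = m := by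
    push_cast
    exact Real.sqrt_sq (by positivity)
  rw [hsq] at hσ
  push_cast at hσ
  have h3 : C * (m : ℝ) ≤ max C 1 * m :=
    mul_le_mul_of_nonneg_right (le_max_left _ _) (by positivity)
  nlinarith

end Pool.Agent.Results.MP_26893d_co.LinearError
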